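import Pool.Agent.Lib.FW.SpecR5

/-!
# FW, part R5, module Lie: primes above and below
-/

open scoped Pointwise nonZeroDivisors

noncomputable section

namespace Pool.Agent.FW

open Pool.Agent.MuZ NumberField IsDedekindDomain

/-- a nonzero prime of `ZZ` contains a nonzero integer -/
private lemma Lie_int (P : Ideal ZZ) (hP0 : P ≠ ⊥) : ∃ n : ℤ, n ≠ 0 ∧ (n : ZZ) ∈ P := by
  obtain ⟨x, hx, hx0⟩ := Submodule.exists_mem_ne_zero_of_ne_bot hP0
  have h1 : IsIntegral ℤ x := by
    have h2 : IsIntegral ℤ (x : Om) := x.2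
    exact (isIntegral_algebraMap_iff (A := ZZ) (B := Om) (R := ℤ) Subtype.val_injective).1 h2
  have h3 := Ideal.comap_ne_bot_of_integral_mem hx0 hx h1
  obtain ⟨n, hn, hn0⟩ := Submodule.exists_mem_ne_zero_of_ne_bot h3
  refine ⟨n, hn0, ?_⟩
  have h4 := Ideal.mem_comap.1 hn
  simpa using h4

private lemma Lie_comap_ne (K : IntermediateField ℚ Om) [NumberField K] (P : Ideal ZZ)
    (hP0 : P ≠ ⊥) : P.comap (iO K) ≠ ⊥ := by
  obtain ⟨n, hn0, hn⟩ := Lie_int P hP0
  intro h
  have h1 : ((n : ℤ) : 𝓞 K) ∈ P.comap (iO K) := by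
    rw [Ideal.mem_comap, map_intCast]
    exact hn
  rw [h, Ideal.mem_bot] at h1
  exact hn0 (by exact_mod_cast h1)

private lemma Lie_inj (K : IntermediateField ℚ Om) : Function.Injective (iO K) := by
  intro x y hxy
  have h1 : ((x : K) : Om) = ((y : K) : Om) := by
    rw [← iO_coe, ← iO_coe, hxy]
  exact RingOfIntegers.ext (Subtype.ext h1)

private lemma Lie_card {A B : Type} [CommRing A] [CommRing B] (j : A →+* B) (I : Ideal A)
    (J : Ideal B) (hI : I.IsMaximal) (hJ : J.IsMaximal) (hfB : Finite (B ⧸ J))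
    (h : I = J.comap j) : ∃ f : ℕ, f ≠ 0 ∧ Nat.card (B ⧸ J) = Nat.card (A ⧸ I) ^ f := by
  let _ : Field (A ⧸ I) := Ideal.Quotient.field I
  let _ : Field (B ⧸ J) := Ideal.Quotient.field J
  let φ : (A ⧸ I) →+* (B ⧸ J) := Ideal.quotientMap J j h.le
  let _ : Algebra (A ⧸ I) (B ⧸ J) := φ.toAlgebra
  have : Module.Finite (A ⧸ I) (B ⧸ J) := Module.Finite.of_finite
  exact ⟨Module.finrank (A ⧸ I) (B ⧸ J), Module.finrank_pos.ne', Module.natCard_eq_pow_finrank⟩

theorem tLie : S_Lie := by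
  refine ⟨?_, ?_, ?_⟩
  · intro K _ v
    let _ : Algebra (𝓞 K) ZZ := (iO K).toAlgebra
    have htow : IsScalarTower ℤ (𝓞 K) ZZ :=
      IsScalarTower.of_algebraMap_eq' (RingHom.ext_int _ _)
    have hint : Algebra.IsIntegral (𝓞 K) ZZ := by
      constructor
      intro x
      have h1 : IsIntegral ℤ x := by
        have h2 : IsIntegral ℤ (x : Om) := x.2
        exact (isIntegral_algebraMap_iff (A := ZZ) (B := Om) (R := ℤ)
          Subtype.val_injective).1 h2
      exact h1.tower_top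
    have hker : RingHom.ker (algebraMap (𝓞 K) ZZ) ≤ v.asIdeal := by
      have h1 : RingHom.ker (algebraMap (𝓞 K) ZZ) = ⊥ :=
        (RingHom.injective_iff_ker_eq_bot _).1 (Lie_inj K)
      rw [h1]
      exact bot_le
    have := v.isPrime
    obtain ⟨P, hP, hPv⟩ := Ideal.exists_ideal_over_prime_of_isIntegral_of_isDomain v.asIdeal hker
    refine ⟨P, hP, ?_, hPv.symm⟩
    rintro rfl
    apply v.ne_bot
    rw [← hPv]
    exact (RingHom.injective_iff_ker_eq_bot _).1 (Lie_inj K)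
  · intro K _ P hP hP0
    exact ⟨⟨P.comap (iO K), Ideal.IsPrime.comap (iO K), Lie_comap_ne K P hP0⟩, hP, hP0, rfl⟩
  · rintro K E _ _ hKE P v w ⟨hP, hP0, hv⟩ ⟨-, -, hw⟩
    let j : 𝓞 K →+* 𝓞 E := RingOfIntegers.mapRingHom
      ((IntermediateField.inclusion hKE : K →ₐ[ℚ] E) : K →+* E)
    have hj : (iO E).comp j = iO K := by
      ext x
      rfl
    have h1 : v.asIdeal = w.asIdeal.comap j := by
      rw [hv, hw, Ideal.comap_comap, hj]
    have hfin : Finite (𝓞 E ⧸ w.asIdeal) := Ring.HasFiniteQuotients.finiteQuotient w.ne_bot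
    exact Lie_card j v.asIdeal w.asIdeal v.isMaximal w.isMaximal hfin h1

end Pool.Agent.FW
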