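import Pool.Agent.Lib.FW.Fr.FrE

/-!
# FW, part R5, module FrE: Frobenius elements exist

The theorem `tFrE : S_FrE` is proved in `Pool/Agent/Lib/FW/Fr/FrE.lean`.
-/
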