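import Pool.Agent.Lib.FW.SpecR5
import Pool.Agent.Lib.MuZ.Tot
import Pool.Agent.Lib.MuZ.Inst

/-!
# FW, part R5, module FrU: Frobenius elements and unramified characters
-/

open scoped Pointwise nonZeroDivisors

noncomputable section

namespace Pool.Agent.FW

open Pool.Agent.MuZ NumberField IsDedekindDomain

private theorem FrU_pw (P : Ideal ZZ) {a b : ZZ} (h : a - b ∈ P) (n : ℕ) : a ^ n - b ^ n ∈ P :=
  P.mem_of_dvd (sub_dvd_pow_sub_pow a b n) h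

private theorem FrU_pow (P : Ideal ZZ) (σ : Gal(Om/ℚ)) (q : ℕ)
    (h : ∀ x : ZZ, σ • x - x ^ q ∈ P) (n : ℕ) : ∀ x : ZZ, (σ ^ n) • x - x ^ q ^ n ∈ P := by
  induction n with
  | zero =>
    intro x
    rw [pow_zero, pow_zero, pow_one, one_smul, sub_self]
    exact P.zero_mem
  | succ n ih =>
    intro x
    have h1 := ih (σ • x)
    have h2 := FrU_pw P (h x) (q ^ n)
    have h3 := P.add_mem h1 h2
    have h4 : (x ^ q) ^ q ^ n = x ^ q ^ (n + 1) := by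
      rw [← pow_mul, pow_succ, mul_comm]
    rw [sub_add_sub_cancel, h4, ← mul_smul, ← pow_succ] at h3
    exact h3

private theorem FrU_ker (P : Ideal ZZ) (hP : P.IsPrime) (a b : Gal(Om/ℚ)) (N : ℕ)
    (ha : ∀ x : ZZ, a • x - x ^ N ∈ P) (hb : ∀ x : ZZ, b • x - x ^ N ∈ P) :
    b⁻¹ * a ∈ P.inertia Gal(Om/ℚ) := by
  rw [AddSubgroup.mem_inertia]
  intro x
  have h1 : a • x - b • x ∈ P := by
    have h2 := P.sub_mem (ha x) (hb x)
    rwa [sub_sub_sub_cancel_right] at h2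
  have h3 : (b⁻¹ * a) • x - x = b⁻¹ • (a • x - b • x) := by
    rw [smul_sub, inv_smul_smul, mul_smul]
  rw [h3]
  have h4 := hb (b⁻¹ • (a • x - b • x))
  rw [smul_inv_smul] at h4
  have h5 := P.sub_mem h1 h4
  rw [sub_sub_cancel] at h5
  exact hP.mem_of_pow_mem N h5

private theorem FrU_conj (P : Ideal ZZ) (ρ σ : Gal(Om/ℚ)) (q : ℕ)
    (h : ∀ x : ZZ, σ • x - x ^ q ∈ P) : ∀ x : ZZ, (ρ * σ * ρ⁻¹) • x - x ^ q ∈ ρ • P := by
  intro x
  have h1 : (ρ * σ * ρ⁻¹) • x - x ^ q = ρ • (σ • (ρ⁻¹ • x) - (ρ⁻¹ • x) ^ q) := by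
    rw [smul_sub, smul_pow', smul_inv_smul, mul_smul, mul_smul]
  rw [h1]
  exact Ideal.smul_mem_pointwise_smul _ _ _ (h _)

section

variable {p : ℕ} {W : Subgroup Gal(Om/ℚ)} {g : Gal(Om/ℚ) → ZMod p}

private theorem FrU_one (h : ∀ a ∈ W, ∀ b ∈ W, g (a * b) = g a + g b) : g 1 = 0 := by
  have h1 := h 1 W.one_mem 1 W.one_mem
  rw [mul_one] at h1
  exact left_eq_add.1 h1

private theorem FrU_inv (h : ∀ a ∈ W, ∀ b ∈ W, g (a * b) = g a + g b) {a : Gal(Om/ℚ)}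
    (ha : a ∈ W) : g a⁻¹ = - g a := by
  have h1 := h a⁻¹ (W.inv_mem ha) a ha
  rw [inv_mul_cancel, FrU_one h] at h1
  exact (neg_eq_of_add_eq_zero_left h1.symm).symm

private theorem FrU_gpow (h : ∀ a ∈ W, ∀ b ∈ W, g (a * b) = g a + g b) {a : Gal(Om/ℚ)}
    (ha : a ∈ W) (n : ℕ) : g (a ^ n) = (n : ZMod p) * g a := by
  induction n with
  | zero => rw [pow_zero, FrU_one h, Nat.cast_zero, zero_mul]
  | succ n ih =>
    rw [pow_succ, h _ (W.pow_mem ha n) _ ha, ih, Nat.cast_succ]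
    ring

/-- Two elements which act modulo `P` as the same power have the same value. -/
private theorem FrU_eq (hg : g ∈ VV p Inr W) (P : Ideal ZZ) (hP : P.IsPrime) (hP0 : P ≠ ⊥)
    (a b : Gal(Om/ℚ)) (haW : a ∈ W) (hbW : b ∈ W) (N : ℕ)
    (ha : ∀ x : ZZ, a • x - x ^ N ∈ P) (hb : ∀ x : ZZ, b • x - x ^ N ∈ P) : g a = g b := by
  obtain ⟨-, g2, -, g4⟩ := hg
  have h1 := g4 (P.inertia Gal(Om/ℚ)) ⟨P, hP, hP0, rfl⟩ (b⁻¹ * a) (FrU_ker P hP a b N ha hb)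
    (W.mul_mem (W.inv_mem hbW) haW)
  rw [g2 _ (W.inv_mem hbW) _ haW, FrU_inv g2 hbW] at h1
  have h2 : g a = g b := by
    rw [neg_add_eq_zero] at h1
    exact h1.symm
  exact h2

end

private theorem FrU_trans (K : IntermediateField ℚ Om) (P P' : Ideal ZZ) (hP : P.IsPrime)
    (hP' : P'.IsPrime) (h : P.comap (iO K) = P'.comap (iO K)) :
    ∃ ρ ∈ K.fixingSubgroup, P' = ρ • P := by
  refine tot_trans K.fixingSubgroup (InfiniteGalois.fixingSubgroup_isClosed K) P P' hP hP' ?_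
  intro x hx
  have hxK : (x : Om) ∈ K := by
    rw [← InfiniteGalois.fixedField_fixingSubgroup K]
    rintro ⟨s, hs⟩
    exact congrArg Subtype.val (hx s hs)
  have hi : IsIntegral ℤ (⟨(x : Om), hxK⟩ : K) := by
    rw [← isIntegral_algebraMap_iff (B := Om)
      (show Function.Injective (algebraMap K Om) from Subtype.val_injective)]
    exact x.2
  have h1 : iO K ⟨⟨(x : Om), hxK⟩, hi⟩ = x := rfl
  rw [← h1, ← Ideal.mem_comap, ← Ideal.mem_comap, h]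

theorem tFrU : S_FrU := by
  intro p _ K _ g hg
  have g2 := hg.2.1
  refine ⟨?_, ?_⟩
  · rintro v P P' σ σ' ⟨hP, hP0, hv⟩ ⟨hP', hP0', hv'⟩ ⟨hσK, hσ⟩ ⟨hσK', hσ'⟩
    obtain ⟨ρ, hρ, hρP⟩ := FrU_trans K P P' hP hP' (hv.symm.trans hv')
    have h1 := FrU_conj P ρ σ _ hσ
    rw [← hρP, ← hv] at h1
    rw [← hv'] at hσ'
    have hm : ρ * σ * ρ⁻¹ ∈ K.fixingSubgroup := mul_mem (mul_mem hρ hσK) (inv_mem hρ)
    rw [FrU_eq hg P' hP' hP0' σ' (ρ * σ * ρ⁻¹) hσK' hm _ hσ' h1,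
      g2 _ (mul_mem hρ hσK) _ (inv_mem hρ), g2 _ hρ _ hσK, FrU_inv g2 hρ]
    ring
  · rintro E _ hKE P v w σ τ f ⟨hP, hP0, hv⟩ ⟨-, -, hw⟩ ⟨hσK, hσ⟩ ⟨hτE, hτ⟩ hcard
    have hτK : τ ∈ K.fixingSubgroup := IntermediateField.fixingSubgroup_antitone hKE hτE
    rw [← hv] at hσ
    rw [← hw, hcard] at hτ
    rw [← FrU_gpow g2 hσK f]
    exact FrU_eq hg P hP hP0 τ (σ ^ f) hτK (pow_mem hσK f) _ hτ (FrU_pow P σ _ hσ f)

end Pool.Agent.FW
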