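import Pool.Agent.Lib.FW.SpecR5

/-! FW, part R5, `S_NS` (helper29): primes which do not split in the field of a character. -/

open scoped Pointwise nonZeroDivisors

noncomputable section

namespace Pool.Agent.FW

open Pool.Agent.MuZ NumberField IsDedekindDomain

private theorem NS_cut {p : ℕ} {K E : IntermediateField ℚ Om} (hKE : K ≤ E)
    {g : Gal(Om/ℚ) → ZMod p} (hg : g ∈ VV p Inr K.fixingSubgroup) :
    ∃ h ∈ VV p Inr E.fixingSubgroup, ∀ σ ∈ E.fixingSubgroup, h σ = g σ := by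
  classical
  have hle : E.fixingSubgroup ≤ K.fixingSubgroup := IntermediateField.fixingSubgroup_le hKE
  obtain ⟨g1, g2, ⟨O, g3⟩, g4⟩ := hg
  refine ⟨fun σ => if σ ∈ E.fixingSubgroup then g σ else 0, ⟨?_, ?_, ⟨O, ?_⟩, ?_⟩, ?_⟩
  · intro σ hσ
    exact if_neg hσ
  · intro a ha b hb
    show (if a * b ∈ E.fixingSubgroup then g (a * b) else 0) =
      (if a ∈ E.fixingSubgroup then g a else 0) + (if b ∈ E.fixingSubgroup then g b else 0)
    rw [if_pos ha, if_pos hb, if_pos (mul_mem ha hb)]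
    exact g2 a (hle ha) b (hle hb)
  · intro a ha hO
    show (if a ∈ E.fixingSubgroup then g a else 0) = 0
    rw [if_pos ha]
    exact g3 a (hle ha) hO
  · intro Λ hΛ a haΛ ha
    show (if a ∈ E.fixingSubgroup then g a else 0) = 0
    rw [if_pos ha]
    exact g4 Λ hΛ a haΛ (hle ha)
  · intro a ha
    exact if_pos ha

theorem tNS : S_NS := by
  intro hR1 hNZ hLie hFrE p _ hp K E _ _ hKE g hg hne M hM
  obtain ⟨h, hh, hhg⟩ := NS_cut hKE hg
  have hh0 : h ≠ 0 := by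
    rintro rfl
    obtain ⟨σ, hσ, hσ0⟩ := hne
    exact hσ0 (hhg σ hσ).symm
  obtain ⟨a, ha, ha0, haS⟩ := hR1 p hp E h hh hh0
  have hw : ∃ w : HeightOneSpectrum (𝓞 E), (M : 𝓞 E) ∉ w.asIdeal ∧ a w ≠ 0 := by
    by_contra hcon
    push Not at hcon
    exact ha0 (hNZ p E M hM a ha hcon)
  obtain ⟨w, hwM, hwa⟩ := hw
  obtain ⟨P, hP⟩ := hLie.1 E w
  obtain ⟨τ, hτ⟩ := hFrE E P hP.1 hP.2.1
  refine ⟨P, w, τ, hP, hτ, hwM, ?_⟩
  intro h0
  apply hwa
  apply haS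
  exact ⟨P, τ, hP, hτ, by rw [hhg τ hτ.1, h0]⟩

end Pool.Agent.FW
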