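import Pool.Agent.Lib.FW.SpecR5

/-!
# A class character which vanishes outside `M` is zero
-/

open scoped Pointwise nonZeroDivisors

noncomputable section

namespace Pool.Agent.FW

open Pool.Agent.MuZ NumberField IsDedekindDomain

namespace NZAux

variable {K : Type} [Field K] [NumberField K]

/-- the valuation in terms of powers -/
private theorem le_vl {x : 𝓞 K} (hx : x ≠ 0) (v : HeightOneSpectrum (𝓞 K)) (k : ℕ) :
    (k : ℤ) ≤ vl K v (algebraMap (𝓞 K) K x) ↔ x ∈ v.asIdeal ^ k := by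
  classical
  have hJ : Ideal.span {x} ≠ (0 : Ideal (𝓞 K)) := by
    rw [Ideal.zero_eq_bot, Ne, Ideal.span_singleton_eq_bot]
    exact hx
  have h1 : vl K v (algebraMap (𝓞 K) K x) =
      ((Associates.mk v.asIdeal).count (Associates.mk (Ideal.span {x})).factors : ℤ) := by
    unfold vl
    rw [← FractionalIdeal.coeIdeal_span_singleton, FractionalIdeal.count_coe K v hJ]
  rw [h1, Nat.cast_le, ← Associates.prime_pow_dvd_iff_le (Associates.mk_ne_zero.2 hJ)
    v.associates_irreducible, ← Associates.mk_pow, Associates.mk_le_mk_iff_dvd,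
    Ideal.dvd_span_singleton]

end NZAux

open NZAux

theorem tNZ : S_NZ := by
  classical
  intro p _ K _ _ M hM a ha h0
  funext v
  by_cases hv : (M : 𝓞 K) ∈ v.asIdeal
  swap
  · exact h0 v hv
  have hM0 : (M : 𝓞 K) ≠ 0 := Nat.cast_ne_zero.2 hM
  -- the primes dividing M
  have hfin : {w : HeightOneSpectrum (𝓞 K) | (M : 𝓞 K) ∈ w.asIdeal}.Finite := by
    have h1 := Ideal.finite_factors (R := 𝓞 K) (I := Ideal.span {(M : 𝓞 K)}) (by
      rw [Ideal.zero_eq_bot, Ne, Ideal.span_singleton_eq_bot]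
      exact hM0)
    refine h1.subset fun w hw => ?_
    exact Ideal.dvd_span_singleton.2 hw
  -- an element of v which is not in v ^ 2
  obtain ⟨t, ht1, ht2⟩ : ∃ t : 𝓞 K, t ∈ v.asIdeal ∧ t ∉ v.asIdeal ^ 2 := by
    by_contra hcon
    push Not at hcon
    have h1 : v.asIdeal ≤ v.asIdeal ^ 2 := hcon
    have h2 : v.asIdeal ^ 2 < v.asIdeal := by
      have := Ideal.pow_lt_self v.asIdeal v.ne_bot v.isPrime.ne_top 2 le_rfl
      exact this
    exact absurd (lt_of_le_of_lt h1 h2) (lt_irrefl _)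
  obtain ⟨x, hx⟩ := IsDedekindDomain.exists_forall_sub_mem_ideal (s := hfin.toFinset)
    (fun w : HeightOneSpectrum (𝓞 K) => w.asIdeal) (fun _ => 2) (fun w _ => w.prime)
    (fun w _ w' _ hne he => hne (HeightOneSpectrum.ext he))
    (fun w => if w.1 = v then t else 1)
  have hxv : x - t ∈ v.asIdeal ^ 2 := by
    have h1 := hx v (hfin.mem_toFinset.2 hv)
    simp only [if_true] at h1
    exact h1
  have hxv1 : x ∈ v.asIdeal := by
    have h1 : x - t ∈ v.asIdeal := Ideal.pow_le_self two_ne_zero hxv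
    have h2 := v.asIdeal.add_mem h1 ht1
    rwa [sub_add_cancel] at h2
  have hxv2 : x ∉ v.asIdeal ^ 2 := by
    intro h
    have h2 := (v.asIdeal ^ 2).sub_mem h hxv
    rw [sub_sub_cancel] at h2
    exact ht2 h2
  have hx0 : x ≠ 0 := by
    rintro rfl
    exact hxv2 (Ideal.zero_mem _)
  have hxw : ∀ w : HeightOneSpectrum (𝓞 K), w ≠ v → (M : 𝓞 K) ∈ w.asIdeal → x ∉ w.asIdeal := by
    intro w hne hw h
    have h1 := hx w (hfin.mem_toFinset.2 hw)
    simp only [if_neg hne] at h1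
    have h2 : x - 1 ∈ w.asIdeal := Ideal.pow_le_self two_ne_zero h1
    have h3 := w.asIdeal.sub_mem h h2
    rw [sub_sub_cancel] at h3
    exact w.isPrime.ne_top (w.asIdeal.eq_top_iff_one.2 h3)
  have hv1 : vl K v (algebraMap (𝓞 K) K x) = 1 := by
    have h1 := (le_vl hx0 v 1).2 (by rwa [pow_one])
    have h2 : ¬ ((2 : ℕ) : ℤ) ≤ vl K v (algebraMap (𝓞 K) K x) :=
      fun h => hxv2 ((le_vl hx0 v 2).1 h)
    push_cast at h1 h2
    omega
  have hw0 : ∀ w : HeightOneSpectrum (𝓞 K), w ≠ v → (M : 𝓞 K) ∈ w.asIdeal →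
      vl K w (algebraMap (𝓞 K) K x) = 0 := by
    intro w hne hw
    have h1 := (le_vl hx0 w 0).2 (by rw [pow_zero, Ideal.one_eq_top]; trivial)
    have h2 : ¬ ((1 : ℕ) : ℤ) ≤ vl K w (algebraMap (𝓞 K) K x) :=
      fun h => hxw w hne hw (by simpa using (le_vl hx0 w 1).1 h)
    push_cast at h1 h2
    omega
  have key := ha (algebraMap (𝓞 K) K x) (by
    rw [Ne, FaithfulSMul.algebraMap_eq_zero_iff]
    exact hx0)
  rw [finsum_eq_single _ v (by
    intro w hne
    by_cases hw : (M : 𝓞 K) ∈ w.asIdeal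
    · rw [hw0 w hne hw, Int.cast_zero, zero_mul]
    · rw [h0 w hw, mul_zero]), hv1, Int.cast_one, one_mul] at key
  exact key

end Pool.Agent.FW
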