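import Pool.Agent.Lib.FW.SpecR5

/-!
# Base change of class characters, abstract
-/

open scoped Pointwise nonZeroDivisors

noncomputable section

namespace Pool.Agent.FW

open Pool.Agent.MuZ NumberField IsDedekindDomain

namespace NmAAux

variable {p : ℕ} {K : Type} [Field K] [NumberField K]

/-- the value of a function on the primes at a fractional ideal -/
private def XX (a : HeightOneSpectrum (𝓞 K) → ZMod p) (I : FractionalIdeal (𝓞 K)⁰ K) : ZMod p :=
  ∑ᶠ v : HeightOneSpectrum (𝓞 K), ((FractionalIdeal.count K v I : ℤ) : ZMod p) * a v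

private theorem XX_fin (a : HeightOneSpectrum (𝓞 K) → ZMod p) (I : FractionalIdeal (𝓞 K)⁰ K) :
    (Function.support fun v : HeightOneSpectrum (𝓞 K) =>
      ((FractionalIdeal.count K v I : ℤ) : ZMod p) * a v).Finite := by
  have h1 := Filter.eventually_cofinite.1 (FractionalIdeal.finite_factors (K := K) I)
  refine h1.subset fun v hv h => hv ?_
  change ((FractionalIdeal.count K v I : ℤ) : ZMod p) * a v = 0
  rw [h, Int.cast_zero, zero_mul]

private theorem XX_mul (a : HeightOneSpectrum (𝓞 K) → ZMod p) {I J : FractionalIdeal (𝓞 K)⁰ K}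
    (hI : I ≠ 0) (hJ : J ≠ 0) : XX a (I * J) = XX a I + XX a J := by
  unfold XX
  rw [← finsum_add_distrib (XX_fin a I) (XX_fin a J)]
  refine finsum_congr fun v => ?_
  rw [FractionalIdeal.count_mul K v hI hJ, Int.cast_add, add_mul]

private theorem XX_one (a : HeightOneSpectrum (𝓞 K) → ZMod p) : XX a 1 = 0 := by
  unfold XX
  rw [← finsum_zero (α := HeightOneSpectrum (𝓞 K)) (M := ZMod p)]
  refine finsum_congr fun v => ?_
  rw [FractionalIdeal.count_one, Int.cast_zero, zero_mul]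

private theorem XX_prime (a : HeightOneSpectrum (𝓞 K) → ZMod p) (w : HeightOneSpectrum (𝓞 K)) :
    XX a (w.asIdeal : FractionalIdeal (𝓞 K)⁰ K) = a w := by
  unfold XX
  rw [finsum_eq_single _ w (fun v hv => by
    rw [FractionalIdeal.count_maximal_coprime K v hv.symm, Int.cast_zero, zero_mul]),
    FractionalIdeal.count_self, Int.cast_one, one_mul]

private theorem XX_pow (a : HeightOneSpectrum (𝓞 K) → ZMod p) {I : FractionalIdeal (𝓞 K)⁰ K}
    (hI : I ≠ 0) (n : ℕ) : XX a (I ^ n) = (n : ZMod p) * XX a I := by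
  induction n with
  | zero => rw [pow_zero, XX_one, Nat.cast_zero, zero_mul]
  | succ n ih => rw [pow_succ, XX_mul a (pow_ne_zero n hI) hI, ih, Nat.cast_succ, add_mul, one_mul]

private theorem ClCh_iff (a : HeightOneSpectrum (𝓞 K) → ZMod p) :
    ClCh p K a ↔ ∀ x : 𝓞 K, x ≠ 0 →
      XX a ((Ideal.span {x} : Ideal (𝓞 K)) : FractionalIdeal (𝓞 K)⁰ K) = 0 := by
  constructor
  · intro h x hx
    have h1 := h (algebraMap (𝓞 K) K x) (by
      rw [Ne, FaithfulSMul.algebraMap_eq_zero_iff]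
      exact hx)
    rw [FractionalIdeal.coeIdeal_span_singleton]
    exact h1
  · intro h x hx
    obtain ⟨y, z, hz, rfl⟩ := IsFractionRing.div_surjective (A := 𝓞 K) x
    have hz0 : z ≠ 0 := nonZeroDivisors.ne_zero hz
    have hz1 : algebraMap (𝓞 K) K z ≠ 0 := by
      rw [Ne, FaithfulSMul.algebraMap_eq_zero_iff]
      exact hz0
    have hy0 : y ≠ 0 := by
      rintro rfl
      exact hx (by rw [map_zero, zero_div])
    have h1 := h y hy0
    have h2 := h z hz0
    rw [FractionalIdeal.coeIdeal_span_singleton] at h1 h2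
    have h3 : FractionalIdeal.spanSingleton (𝓞 K)⁰ (algebraMap (𝓞 K) K y) =
        FractionalIdeal.spanSingleton (𝓞 K)⁰ (algebraMap (𝓞 K) K y / algebraMap (𝓞 K) K z) *
          FractionalIdeal.spanSingleton (𝓞 K)⁰ (algebraMap (𝓞 K) K z) := by
      rw [FractionalIdeal.spanSingleton_mul_spanSingleton, div_mul_cancel₀ _ hz1]
    rw [h3, XX_mul a (FractionalIdeal.spanSingleton_ne_zero_iff.2 hx)
      (FractionalIdeal.spanSingleton_ne_zero_iff.2 hz1), h2, add_zero] at h1
    exact h1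

variable {E : Type} [Field E] [NumberField E] [Algebra K E]

private instance : Module.Finite (𝓞 K) (𝓞 E) :=
  Module.Finite.of_restrictScalars_finite ℤ (𝓞 K) (𝓞 E)

private instance : CharZero (FractionRing (𝓞 K)) :=
  charZero_of_injective_algebraMap (IsFractionRing.injective (𝓞 K) (FractionRing (𝓞 K)))

/-- the data of a prime above -/
private theorem ex_data (w : HeightOneSpectrum (𝓞 E)) :
    ∃ (v : HeightOneSpectrum (𝓞 K)) (s : ℕ),
      w.asIdeal.comap (algebraMap (𝓞 K) (𝓞 E)) = v.asIdeal ∧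
      Ideal.relNorm (𝓞 K) w.asIdeal = v.asIdeal ^ s ∧
      Nat.card (𝓞 E ⧸ w.asIdeal) = Nat.card (𝓞 K ⧸ v.asIdeal) ^ s := by
  have hne : w.asIdeal.comap (algebraMap (𝓞 K) (𝓞 E)) ≠ ⊥ := by
    intro h
    exact w.ne_bot (Ideal.eq_bot_of_comap_eq_bot h)
  have hp : (w.asIdeal.comap (algebraMap (𝓞 K) (𝓞 E))).IsPrime := Ideal.IsPrime.comap _
  let v : HeightOneSpectrum (𝓞 K) := ⟨w.asIdeal.comap (algebraMap (𝓞 K) (𝓞 E)), hp, hne⟩
  have : w.asIdeal.LiesOver v.asIdeal := ⟨rfl⟩
  have : v.asIdeal.IsPrime := hp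
  obtain ⟨s, hs⟩ := Ideal.exists_relNorm_eq_pow_of_isPrime w.asIdeal v.asIdeal
  refine ⟨v, s, rfl, hs, ?_⟩
  have h1 := Ideal.absNorm_relNorm (R := 𝓞 K) (𝓞 E) w.asIdeal
  rw [hs, map_pow] at h1
  exact h1.symm

end NmAAux

open NmAAux

theorem tNmA : S_NmA := by
  classical
  intro p _ K E _ _ _ _ _ a ha
  choose V S h1 h2 h3 using ex_data (K := K) (E := E)
  refine ⟨fun w => (S w : ZMod p) * a (V w), ?_, ?_⟩
  · rw [ClCh_iff] at ha ⊢
    have key : ∀ J : Ideal (𝓞 E), J ≠ 0 →
        XX (fun w => (S w : ZMod p) * a (V w)) (J : FractionalIdeal (𝓞 E)⁰ E) =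
          XX a ((Ideal.relNorm (𝓞 K) J : Ideal (𝓞 K)) : FractionalIdeal (𝓞 K)⁰ K) := by
      intro J
      induction J using UniqueFactorizationMonoid.induction_on_prime with
      | h₁ => exact fun h => absurd rfl h
      | h₂ J hJ =>
        intro _
        rw [Ideal.isUnit_iff] at hJ
        rw [hJ, Ideal.relNorm_top, FractionalIdeal.coeIdeal_top, FractionalIdeal.coeIdeal_top,
          XX_one, XX_one]
      | h₃ J P hJ hP ih =>
        intro _
        have hP0 : P ≠ ⊥ := hP.ne_zero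
        have hPp : P.IsPrime := Ideal.isPrime_of_prime hP
        have e1 : XX (fun w => (S w : ZMod p) * a (V w)) (P : FractionalIdeal (𝓞 E)⁰ E) =
            XX a ((Ideal.relNorm (𝓞 K) P : Ideal (𝓞 K)) : FractionalIdeal (𝓞 K)⁰ K) := by
          have e2 := XX_prime (fun w => (S w : ZMod p) * a (V w)) (⟨P, hPp, hP0⟩ :
            HeightOneSpectrum (𝓞 E))
          have e3 := h2 (⟨P, hPp, hP0⟩ : HeightOneSpectrum (𝓞 E))
          change XX _ (P : FractionalIdeal (𝓞 E)⁰ E) = _ at e2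
          change Ideal.relNorm (𝓞 K) P = _ at e3
          rw [e2, e3, FractionalIdeal.coeIdeal_pow,
            XX_pow a (FractionalIdeal.coeIdeal_ne_zero.2 (V _).ne_bot), XX_prime]
        rw [map_mul, FractionalIdeal.coeIdeal_mul, FractionalIdeal.coeIdeal_mul,
          XX_mul _ (FractionalIdeal.coeIdeal_ne_zero.2 hP0) (FractionalIdeal.coeIdeal_ne_zero.2 hJ),
          XX_mul _ (FractionalIdeal.coeIdeal_ne_zero.2
            (fun h => hP0 (Ideal.relNorm_eq_bot_iff.1 h)))
            (FractionalIdeal.coeIdeal_ne_zero.2 (fun h => hJ (Ideal.relNorm_eq_bot_iff.1 h))),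
          e1, ih hJ]
    intro y hy
    have hy' : Ideal.span {y} ≠ (0 : Ideal (𝓞 E)) := by
      rw [Ideal.zero_eq_bot, Ne, Ideal.span_singleton_eq_bot]
      exact hy
    rw [key _ hy', Ideal.relNorm_singleton]
    refine ha _ ?_
    intro h0
    have h4 : Ideal.relNorm (𝓞 K) (Ideal.span {y}) = ⊥ := by
      rw [Ideal.relNorm_singleton, h0, Ideal.span_singleton_eq_bot]
    exact hy' (Ideal.relNorm_eq_bot_iff.1 h4)
  · intro v w f hv hf
    have e : V w = v := HeightOneSpectrum.ext ((h1 w).symm.trans hv)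
    have h4 := h3 w
    rw [e, hf] at h4
    have h5 : 1 < Nat.card (𝓞 K ⧸ v.asIdeal) := by
      have h6 : Nat.card (𝓞 K ⧸ v.asIdeal) = Ideal.absNorm v.asIdeal := rfl
      rw [h6]
      have h7 : Ideal.absNorm v.asIdeal ≠ 1 := fun h =>
        v.isPrime.ne_top (Ideal.absNorm_eq_one_iff.1 h)
      have h8 : Ideal.absNorm v.asIdeal ≠ 0 := fun h =>
        v.ne_bot (Ideal.absNorm_eq_zero_iff.1 h)
      omega
    have h6 : f = S w := Nat.pow_right_injective h5 h4
    change (S w : ZMod p) * a (V w) = (f : ZMod p) * a v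
    rw [e, h6]

end Pool.Agent.FW
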