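import Pool.Agent.Lib.FW.SpecR5

/-!
# Base change of class characters, inside `Om`
-/

open scoped Pointwise nonZeroDivisors

noncomputable section

namespace Pool.Agent.FW

open Pool.Agent.MuZ NumberField IsDedekindDomain

theorem tNmC : S_NmC := by
  intro hA p _ K E _ _ hKE a ha
  let _ : Algebra K E := (IntermediateField.inclusion hKE).toRingHom.toAlgebra
  obtain ⟨b, hb1, hb2⟩ := hA p K E a ha
  refine ⟨b, hb1, fun P v w f hv hw hf => hb2 v w f ?_ hf⟩
  rw [hv.2.2, hw.2.2, Ideal.comap_comap]
  rfl

end Pool.Agent.FW
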