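import Pool.Agent.Lib.FW.SpecR5

/-!
# FW, stage 2, module R5: reciprocity
-/

open scoped Pointwise nonZeroDivisors

noncomputable section

namespace Pool.Agent.FW

open Pool.Agent.MuZ NumberField IsDedekindDomain

namespace R5Aux

open Classical in
/-- the restriction of `g` to a subgroup -/
private def cut (p : ℕ) (U : Subgroup Gal(Om/ℚ)) (g : Gal(Om/ℚ) → ZMod p) : Gal(Om/ℚ) → ZMod p :=
  fun σ => if σ ∈ U then g σ else 0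

private theorem cut_mem (p : ℕ) (U : Subgroup Gal(Om/ℚ)) (g : Gal(Om/ℚ) → ZMod p)
    (σ : Gal(Om/ℚ)) (h : σ ∈ U) : cut p U g σ = g σ := if_pos h

private theorem cut_VV (p : ℕ) (Ls : Set (Subgroup Gal(Om/ℚ))) (U W : Subgroup Gal(Om/ℚ))
    (hUW : U ≤ W) (g : Gal(Om/ℚ) → ZMod p) (hg : g ∈ VV p Ls W) : cut p U g ∈ VV p Ls U := by
  obtain ⟨-, h2, ⟨O, h3⟩, h4⟩ := hg
  refine ⟨fun σ hσ => if_neg hσ, fun σ hσ τ hτ => ?_, ⟨O, fun σ hσ hO => ?_⟩, fun Λ hΛ σ hσ hU => ?_⟩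
  · rw [cut_mem p U g _ (U.mul_mem hσ hτ), cut_mem p U g _ hσ, cut_mem p U g _ hτ,
      h2 σ (hUW hσ) τ (hUW hτ)]
  · rw [cut_mem p U g _ hσ, h3 σ (hUW hσ) hO]
  · rw [cut_mem p U g _ hU, h4 Λ hΛ σ hσ (hUW hU)]

/-- the conclusion of the comparison over `E` -/
private def Cmp (p : ℕ) (K : IntermediateField ℚ Om) (g : Gal(Om/ℚ) → ZMod p)
    (ψ : HeightOneSpectrum (𝓞 K) → ZMod p) (E : IntermediateField ℚ Om) (m : ℕ) (c : ZMod p) : Prop :=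
  ∀ (P : Ideal ZZ) (v : HeightOneSpectrum (𝓞 K)) (w : HeightOneSpectrum (𝓞 E))
    (τ : Gal(Om/ℚ)) (f : ℕ), Ab K P v → Ab E P w → IsFr E P τ → (m : 𝓞 E) ∉ w.asIdeal →
    Nat.card (𝓞 E ⧸ w.asIdeal) = Nat.card (𝓞 K ⧸ v.asIdeal) ^ f →
    (f : ZMod p) * ψ v = c * g τ

private theorem nat_mem (E : IntermediateField ℚ Om) (P : Ideal ZZ) (w : HeightOneSpectrum (𝓞 E))
    (h : Ab E P w) (m : ℕ) : (m : 𝓞 E) ∈ w.asIdeal ↔ (m : ZZ) ∈ P := by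
  rw [h.2.2, Ideal.mem_comap, map_natCast]

private theorem two_le (K : IntermediateField ℚ Om) [NumberField K] (v : HeightOneSpectrum (𝓞 K)) :
    2 ≤ Nat.card (𝓞 K ⧸ v.asIdeal) := by
  have : Finite (𝓞 K ⧸ v.asIdeal) := Ideal.finiteQuotientOfFreeOfNeBot v.asIdeal v.ne_bot
  have : Nontrivial (𝓞 K ⧸ v.asIdeal) := Ideal.Quotient.nontrivial_iff.2 v.isPrime.ne_top
  exact Finite.one_lt_card

/-- If all `x` satisfy `x ^ q = x` then there are at most `q` elements. -/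
private theorem card_le (R : Type*) [CommRing R] [IsDomain R] [Finite R] (q : ℕ) (hq : 1 < q)
    (h : ∀ x : R, x ^ q = x) : Nat.card R ≤ q := by
  classical
  have := Fintype.ofFinite R
  rw [Nat.card_eq_fintype_card]
  have hd : (Polynomial.X ^ q - Polynomial.X : Polynomial R).natDegree = q := by
    have h1 : (Polynomial.X : Polynomial R).degree < (Polynomial.X ^ q : Polynomial R).degree := by
      rw [Polynomial.degree_X_pow, Polynomial.degree_X]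
      exact mod_cast hq
    rw [Polynomial.natDegree_eq_of_degree_eq (Polynomial.degree_sub_eq_left_of_degree_lt h1),
      Polynomial.natDegree_X_pow]
  have h0 : (Polynomial.X ^ q - Polynomial.X : Polynomial R) ≠ 0 :=
    Polynomial.ne_zero_of_natDegree_gt (hq.trans_eq hd.symm)
  have h1 := Polynomial.card_le_degree_of_subset_roots (p := (Polynomial.X ^ q - Polynomial.X : Polynomial R))
    (Z := Finset.univ) (by
      intro x _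
      rw [Polynomial.mem_roots h0]
      simp [Polynomial.IsRoot, h x])
  rw [hd] at h1
  exact h1

/-- STEP 1 -/
private theorem step1 (hLie : S_Lie) (p : ℕ) (K E : IntermediateField ℚ Om) [NumberField K]
    [NumberField E] (hKE : K ≤ E) (g : Gal(Om/ℚ) → ZMod p) (ψ : HeightOneSpectrum (𝓞 K) → ZMod p)
    (m : ℕ) (c : ZMod p) (hc : Cmp p K g ψ E m c) (P : Ideal ZZ) (v : HeightOneSpectrum (𝓞 K))
    (hv : Ab K P v) (hm : (m : ZZ) ∉ P) (σ : Gal(Om/ℚ)) (hσE : σ ∈ E.fixingSubgroup)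
    (hσ : IsFr K P σ) : ψ v = c * g σ := by
  obtain ⟨w, hw⟩ := hLie.2.1 E P hv.1 hv.2.1
  obtain ⟨f, hf0, hf⟩ := hLie.2.2 K E hKE P v w hv hw
  have hq := two_le K v
  have : Finite (𝓞 E ⧸ w.asIdeal) := Ideal.finiteQuotientOfFreeOfNeBot w.asIdeal w.ne_bot
  have : w.asIdeal.IsPrime := w.isPrime
  have hle : Nat.card (𝓞 E ⧸ w.asIdeal) ≤ Nat.card (𝓞 K ⧸ v.asIdeal) := by
    refine card_le _ _ hq fun x => ?_
    obtain ⟨y, rfl⟩ := Ideal.Quotient.mk_surjective x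
    rw [← map_pow, eq_comm, Ideal.Quotient.eq, hw.2.2, Ideal.mem_comap, map_sub, map_pow]
    have h1 := hσ.2 (iO E y)
    rw [← hv.2.2] at h1
    have h2 : σ • iO E y = iO E y := by
      apply Subtype.ext
      exact hσE ⟨_, (y : E).2⟩
    rwa [h2] at h1
  have hf1 : f = 1 := by
    by_contra hne
    have h2 : 2 ≤ f := by omega
    have h3 := Nat.pow_lt_pow_right (show 1 < Nat.card (𝓞 K ⧸ v.asIdeal) by omega)
      (show 1 < f by omega)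
    rw [pow_one, ← hf] at h3
    omega
  have h1 := hc P v w σ 1 hv hw ⟨hσE, fun x => by
    have h2 := hσ.2 x
    rwa [← hv.2.2, ← pow_one (Nat.card (𝓞 K ⧸ v.asIdeal)), ← hf1, ← hf, hw.2.2] at h2⟩
    (by rwa [nat_mem E P w hw]) (by rw [hf, hf1])
  rwa [Nat.cast_one, one_mul] at h1

/-- STEP 2 -/
private theorem step2 (hLie : S_Lie) (hFrE : S_FrE) (hFrU : S_FrU) (p : ℕ) [Fact p.Prime]
    (K E₁ E₂ : IntermediateField ℚ Om) [NumberField K]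
    [NumberField E₁] [NumberField E₂] (hK₁ : K ≤ E₁) (hK₂ : K ≤ E₂) (g : Gal(Om/ℚ) → ZMod p)
    (hg : g ∈ VV p Inr K.fixingSubgroup)
    (hNS : ∀ (K E : IntermediateField ℚ Om) [NumberField K] [NumberField E], K ≤ E →
      ∀ g ∈ VV p Inr K.fixingSubgroup, (∃ σ ∈ E.fixingSubgroup, g σ ≠ 0) → ∀ M : ℕ, M ≠ 0 →
      ∃ (P : Ideal ZZ) (w : HeightOneSpectrum (𝓞 E)) (τ : Gal(Om/ℚ)), Ab E P w ∧ IsFr E P τ ∧
        (M : 𝓞 E) ∉ w.asIdeal ∧ g τ ≠ 0)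
    (B : ℕ)
    (hB : ∀ m t : ℕ, 0 < m → m.Coprime B → t.Coprime m →
        ∃ σ ∈ K.fixingSubgroup, g σ = 1 ∧ ∀ z : Om, z ^ m = 1 → σ z = z ^ t)
    (ψ : HeightOneSpectrum (𝓞 K) → ZMod p) (m₁ m₂ t₁ t₂ : ℕ) (hm₁ : 0 < m₁) (hm₂ : 0 < m₂)
    (hB₁ : m₁.Coprime B) (hB₂ : m₂.Coprime B) (hmm : m₁.Coprime m₂) (ht₁ : t₁.Coprime m₁)
    (ht₂ : t₂.Coprime m₂)
    (hF₁ : ∀ σ ∈ K.fixingSubgroup, g σ = 1 → (∀ z : Om, z ^ m₁ = 1 → σ z = z ^ t₁) →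
      σ ∈ E₁.fixingSubgroup)
    (hF₂ : ∀ σ ∈ K.fixingSubgroup, g σ = 1 → (∀ z : Om, z ^ m₂ = 1 → σ z = z ^ t₂) →
      σ ∈ E₂.fixingSubgroup)
    (c₁ c₂ : ZMod p) (hc₁ : Cmp p K g ψ E₁ m₁ c₁) (hc₂ : Cmp p K g ψ E₂ m₂ c₂) : c₁ = c₂ := by
  have : NumberField (E₁ ⊔ E₂ : IntermediateField ℚ Om) :=
    { to_charZero := inferInstance
      to_finiteDimensional := inferInstance }
  obtain ⟨t, hte₁, hte₂⟩ := Nat.chineseRemainder hmm t₁ t₂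
  have hc : t.Coprime (m₁ * m₂) := by
    refine Nat.Coprime.mul_right ?_ ?_
    · exact hte₁.gcd_eq.trans ht₁
    · exact hte₂.gcd_eq.trans ht₂
  obtain ⟨σ, hσK, hσ1, hσt⟩ := hB (m₁ * m₂) t (Nat.mul_pos hm₁ hm₂) (Nat.Coprime.mul_left hB₁ hB₂) hc
  have hroot : ∀ (m n s : ℕ), n ∣ m₁ * m₂ → t ≡ s [MOD n] → ∀ z : Om, z ^ n = 1 → σ z = z ^ s := by
    intro m n s hn hs z hz
    obtain ⟨d, hd⟩ := hn
    rw [hσt z (by rw [hd, pow_mul, hz, one_pow]), pow_eq_pow_mod t hz, hs, ← pow_eq_pow_mod s hz]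
  have hσ₁ : σ ∈ E₁.fixingSubgroup := hF₁ σ hσK hσ1 (hroot 0 m₁ t₁ (dvd_mul_right _ _) hte₁)
  have hσ₂ : σ ∈ E₂.fixingSubgroup := hF₂ σ hσK hσ1 (hroot 0 m₂ t₂ (dvd_mul_left _ _) hte₂)
  have hσE : σ ∈ (E₁ ⊔ E₂).fixingSubgroup := by
    rw [IntermediateField.fixingSubgroup_sup]
    exact ⟨hσ₁, hσ₂⟩
  obtain ⟨P, w, τ, hw, hτ, hmw, hgτ⟩ := hNS K (E₁ ⊔ E₂) (hK₁.trans le_sup_left) g hg
    ⟨σ, hσE, by rw [hσ1]; exact one_ne_zero⟩ (m₁ * m₂) (Nat.mul_pos hm₁ hm₂).ne'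
  rw [nat_mem _ P w hw, Nat.cast_mul] at hmw
  obtain ⟨v, hv⟩ := hLie.2.1 K P hw.1 hw.2.1
  have key : ∀ (E' : IntermediateField ℚ Om) [NumberField E'] (m' : ℕ) (c : ZMod p), K ≤ E' →
      E' ≤ E₁ ⊔ E₂ → (m' : ZZ) ∉ P → Cmp p K g ψ E' m' c →
      ∃ e : ℕ, Nat.card (𝓞 (E₁ ⊔ E₂ : IntermediateField ℚ Om) ⧸ w.asIdeal) =
        Nat.card (𝓞 K ⧸ v.asIdeal) ^ e ∧ (e : ZMod p) * ψ v = c * g τ := by
    intro E' _ m' c hKE' hE'E hm' hc'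
    obtain ⟨w', hw'⟩ := hLie.2.1 E' P hw.1 hw.2.1
    obtain ⟨e, -, he⟩ := hLie.2.2 K E' hKE' P v w' hv hw'
    obtain ⟨f, -, hf⟩ := hLie.2.2 E' (E₁ ⊔ E₂) hE'E P w' w hw' hw
    obtain ⟨τ', hτ'⟩ := hFrE E' P hw.1 hw.2.1
    have h1 := hc' P v w' τ' e hv hw' hτ' (by rwa [nat_mem _ P w' hw']) he
    have h2 := (hFrU p E' (cut p E'.fixingSubgroup g) (cut_VV p Inr _ _
      (IntermediateField.fixingSubgroup_le hKE') g hg)).2 (E₁ ⊔ E₂) hE'E P w' w τ' τ f hw' hw hτ'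
      hτ hf
    rw [cut_mem _ _ _ _ hτ'.1, cut_mem _ _ _ _ (IntermediateField.fixingSubgroup_le hE'E hτ.1)] at h2
    refine ⟨e * f, by rw [hf, he, pow_mul], ?_⟩
    rw [h2, Nat.cast_mul]
    linear_combination (f : ZMod p) * h1
  obtain ⟨e₁, he₁, hq₁⟩ := key E₁ m₁ c₁ hK₁ le_sup_left (fun h => hmw (P.mul_mem_right _ h)) hc₁
  obtain ⟨e₂, he₂, hq₂⟩ := key E₂ m₂ c₂ hK₂ le_sup_right (fun h => hmw (P.mul_mem_left _ h)) hc₂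
  have he : e₁ = e₂ := Nat.pow_right_injective (two_le K v) (he₁.symm.trans he₂)
  rw [he, hq₂] at hq₁
  exact (mul_right_cancel₀ hgτ hq₁).symm

end R5Aux

open R5Aux in
theorem tR5 : S_R5 := by
  intro hR1 hR4 hLie hFrE hFrU hNS hA p _ hp K _ g hg hg0
  obtain ⟨ψ, hψ, hψ0, hψs⟩ := hR1 p hp K g hg hg0
  obtain ⟨B, hBpos, hB, hR⟩ := hR4 p hp K g hg hg0
  -- for each prime: a constant
  have hE : ∀ (E : IntermediateField ℚ Om) [NumberField E] (m t : ℕ), K ≤ E → 0 < m →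
      m.Coprime B → t.Coprime m →
      (∀ σ ∈ E.fixingSubgroup, (∀ z : Om, z ^ m = 1 → σ z = z) → g σ = 0) →
      (∀ σ ∈ K.fixingSubgroup, g σ = 1 → (∀ z : Om, z ^ m = 1 → σ z = z ^ t) →
        σ ∈ E.fixingSubgroup) → ∃ c : ZMod p, Cmp p K g ψ E m c := by
    intro E _ m t hKE hm hmB htm hcyc hF
    obtain ⟨σ, hσK, hσ1, hσt⟩ := hB m t hm hmB htm
    exact hA p hp K E hKE g hg ⟨σ, hF σ hσK hσ1 hσt, by rw [hσ1]; exact one_ne_zero⟩ ψ hψ hψs m hm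
      hcyc
  obtain ⟨v₁, hv₁⟩ : ∃ v₁, ψ v₁ ≠ 0 := Function.ne_iff.1 hψ0
  obtain ⟨P₁, hP₁⟩ := hLie.1 K v₁
  obtain ⟨E₁, m₁, t₁, hfd₁, hK₁, hm₁, hB₁, -, ht₁, -, hcyc₁, -, hF₁⟩ :=
    hR P₁ hP₁.1 hP₁.2.1 1 one_pos
  have : NumberField E₁ := { to_charZero := inferInstance, to_finiteDimensional := hfd₁ }
  obtain ⟨c₁, hc₁⟩ := hE E₁ m₁ t₁ hK₁ hm₁ hB₁ ht₁ hcyc₁ hF₁
  have claim : ∀ (v : HeightOneSpectrum (𝓞 K)) (P : Ideal ZZ) (σ : Gal(Om/ℚ)), Ab K P v →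
      IsFr K P σ → ψ v = c₁ * g σ := by
    intro v P σ hv hσ
    obtain ⟨E₂, m₂, t₂, hfd₂, hK₂, hm₂, hB₂, hM₂, ht₂, hmP₂, hcyc₂, ⟨σ₂, hσ₂E, hσ₂⟩, hF₂⟩ :=
      hR P hv.1 hv.2.1 m₁ hm₁
    have : NumberField E₂ := { to_charZero := inferInstance, to_finiteDimensional := hfd₂ }
    obtain ⟨c₂, hc₂⟩ := hE E₂ m₂ t₂ hK₂ hm₂ hB₂ ht₂ hcyc₂ hF₂
    have h1 := step1 hLie p K E₂ hK₂ g ψ m₂ c₂ hc₂ P v hv hmP₂ σ₂ hσ₂E hσ₂
    have h2 : c₁ = c₂ := step2 hLie hFrE hFrU p K E₁ E₂ hK₁ hK₂ g hg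
      (fun K E _ _ => hNS p hp K E) B hB ψ m₁ m₂ t₁ t₂ hm₁ hm₂ hB₁ hB₂ hM₂.symm ht₁ ht₂ hF₁ hF₂
      c₁ c₂ hc₁ hc₂
    have h3 := (hFrU p K g hg).1 v P P σ σ₂ hv hv hσ hσ₂
    rw [h1, h2, h3]
  have hc0 : c₁ ≠ 0 := by
    rintro rfl
    obtain ⟨σ, hσ⟩ := hFrE K P₁ hP₁.1 hP₁.2.1
    apply hv₁
    rw [claim v₁ P₁ σ hP₁ hσ, zero_mul]
  refine ⟨fun v => c₁⁻¹ * ψ v, ?_, ?_, ?_⟩
  · intro x hx
    have h1 := hψ x hx
    have h2 : (∑ᶠ v : HeightOneSpectrum (𝓞 K), (vl K v x : ZMod p) * (c₁⁻¹ * ψ v)) =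
        c₁⁻¹ * ∑ᶠ v : HeightOneSpectrum (𝓞 K), (vl K v x : ZMod p) * ψ v := by
      rw [mul_finsum]
      exact finsum_congr fun v => by ring
    rw [h2, h1, mul_zero]
  · intro h
    have h1 := congrFun h v₁
    exact (mul_ne_zero (inv_ne_zero hc0) hv₁) h1
  · intro v P σ _ hv hσ
    show c₁⁻¹ * ψ v = g σ
    rw [claim v P σ hv hσ, inv_mul_cancel_left₀ hc0]

end Pool.Agent.FW
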