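import Pool.Agent.Lib.FW.SpecR5

/-!
# FW, stage 2, module R5a: comparison over `E`
-/

open scoped Pointwise nonZeroDivisors

noncomputable section

namespace Pool.Agent.FW

open Pool.Agent.MuZ NumberField IsDedekindDomain

open Classical in
/-- the restriction of `g` to a subgroup -/
private def R5a_cut (p : ℕ) (U : Subgroup Gal(Om/ℚ)) (g : Gal(Om/ℚ) → ZMod p) : Gal(Om/ℚ) → ZMod p :=
  fun σ => if σ ∈ U then g σ else 0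

private theorem R5a_cut_mem (p : ℕ) (U : Subgroup Gal(Om/ℚ)) (g : Gal(Om/ℚ) → ZMod p)
    (σ : Gal(Om/ℚ)) (h : σ ∈ U) : R5a_cut p U g σ = g σ := if_pos h

private theorem R5a_cut_VV (p : ℕ) (Ls : Set (Subgroup Gal(Om/ℚ))) (U W : Subgroup Gal(Om/ℚ))
    (hUW : U ≤ W) (g : Gal(Om/ℚ) → ZMod p) (hg : g ∈ VV p Ls W) : R5a_cut p U g ∈ VV p Ls U := by
  obtain ⟨-, h2, ⟨O, h3⟩, h4⟩ := hg
  refine ⟨fun σ hσ => if_neg hσ, fun σ hσ τ hτ => ?_, ⟨O, fun σ hσ hO => ?_⟩, fun Λ hΛ σ hσ hU => ?_⟩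
  · rw [R5a_cut_mem p U g _ (U.mul_mem hσ hτ), R5a_cut_mem p U g _ hσ, R5a_cut_mem p U g _ hτ,
      h2 σ (hUW hσ) τ (hUW hτ)]
  · rw [R5a_cut_mem p U g _ hσ, h3 σ (hUW hσ) hO]
  · rw [R5a_cut_mem p U g _ hU, h4 Λ hΛ σ hσ (hUW hU)]

theorem tR5a : S_R5a := by
  intro hR2 hR3 hLie hFrE hFrU hNm hNS p _ hp K E _ _ hKE g hg hgE ψ hψ hψs m hm hcyc
  have hEK : E.fixingSubgroup ≤ K.fixingSubgroup := IntermediateField.fixingSubgroup_le hKE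
  obtain ⟨h, hdef⟩ : ∃ h, h = R5a_cut p E.fixingSubgroup g := ⟨_, rfl⟩
  have hmem : ∀ σ ∈ E.fixingSubgroup, h σ = g σ := by
    intro σ hσ
    rw [hdef]
    exact R5a_cut_mem p _ g σ hσ
  have hh : h ∈ VV p Inr E.fixingSubgroup := by
    rw [hdef]
    exact R5a_cut_VV p Inr _ _ hEK g hg
  have hne : h ≠ 0 := by
    intro h0
    obtain ⟨σ, hσ, hgσ⟩ := hgE
    rw [← hmem σ hσ, h0] at hgσ
    exact hgσ rfl
  obtain ⟨ψ', hψ', hψc⟩ := hNm p K E hKE ψ hψ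
  obtain ⟨b, hb, hbA⟩ := hR3 p hp E h hh m hm (fun σ hσ hz => by rw [hmem σ hσ, hcyc σ hσ hz])
  have hb0 : ∀ w, (m : 𝓞 E) ∉ w.asIdeal → Spl p E h w → b w = 0 := by
    rintro w hw ⟨P, σ, hP, hσ, h0⟩
    rw [hbA w P σ hw hP hσ, h0]
  have hψ0 : ∀ w, (m : 𝓞 E) ∉ w.asIdeal → Spl p E h w → ψ' w = 0 := by
    rintro w hw ⟨P, τ, hP, hτ, h0⟩
    obtain ⟨v, hv⟩ := hLie.2.1 K P hP.1 hP.2.1
    obtain ⟨f, -, hf⟩ := hLie.2.2 K E hKE P v w hv hP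
    obtain ⟨σ, hσ⟩ := hFrE K P hP.1 hP.2.1
    have h1 := (hFrU p K g hg).2 E hKE P v w σ τ f hv hP hσ hτ hf
    rw [← hmem τ hτ.1, h0] at h1
    rw [hψc P v w f hv hP hf]
    rcases mul_eq_zero.1 h1.symm with h2 | h2
    · rw [h2, zero_mul]
    · rw [hψs v ⟨P, σ, hv, hσ, h2⟩, mul_zero]
  obtain ⟨c, d, hcd, hrel⟩ := hR2 p E h hh hne m hm.ne' ψ' b hψ' hb hψ0 hb0
  have hc : c ≠ 0 := by
    intro hc
    have hd : d ≠ 0 := hcd.resolve_left fun h => h hc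
    obtain ⟨P, w, τ, hP, hτ, hw, hgτ⟩ := hNS p hp K E hKE g hg hgE m hm.ne'
    have h1 := hrel w
    rw [hc, zero_mul, zero_add, hbA w P τ hw hP hτ, hmem τ hτ.1] at h1
    exact (mul_ne_zero hd hgτ) h1
  refine ⟨-(c⁻¹ * d), fun P v w τ f hv hP hτ hw hf => ?_⟩
  have h1 := hrel w
  rw [hψc P v w f hv hP hf, hbA w P τ hw hP hτ, hmem τ hτ.1] at h1
  have h2 : c * ((f : ZMod p) * ψ v) = -(d * g τ) := eq_neg_of_add_eq_zero_left h1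
  calc (f : ZMod p) * ψ v = c⁻¹ * (c * ((f : ZMod p) * ψ v)) := by
        rw [inv_mul_cancel_left₀ hc]
    _ = -(c⁻¹ * d) * g τ := by
        rw [h2]
        ring

end Pool.Agent.FW
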